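import Mathlib
import Pool.Agent.U605.ST.Final

set_option autoImplicit false

/-!
# The Segre-Harbourne-Gimigliano-Hirschowitz conjecture: equal multiplicities and a small tail

Let `M` be the multiplicity at `n ≥ 36` general points of the complex projective plane. The further
general points are arbitrarily many points of multiplicity `1` (or `0`) and a tail of points of
multiplicities `m i ≥ 2`, of which

* all are at most `3 √n / 4 - 3 / 2`, `4 ∑ m i (m i + 1) ≤ 3 (√n - 5) M` and `M ≥ n / 4`, or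
* all are at most `9 √n / 8 - 17 / 8`, `4 ∑ m i (m i + 1) ≤ (√n - 5) M` and `M ≥ n / 2`.

Then `dim |d H - ∑ m i E i|` is the expected one in EVERY degree `d`, for all points of one nonempty
open set. The number of the points of the tail is not bounded (it grows with `M`), and their
multiplicities need not be related to each other or to `M`.
-/

namespace Pool.Agent.Results.MP_6e81d8_ag.EqualPlusSmallMultiplicities

/-- The vector space of the forms of degree `d` in three variables over `ℂ` with multiplicity at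
least `m i` at the point `(P i 0 : P i 1 : 1)` for every `i`. -/
noncomputable def forms {r : ℕ} (P : Fin r → Fin 2 → ℂ) (d : ℕ) (m : Fin r → ℕ) :
    Submodule ℂ (MvPolynomial (Fin 3) ℂ) :=
  MvPolynomial.homogeneousSubmodule (Fin 3) ℂ d ⊓
    Submodule.restrictScalars ℂ
      (⨅ i : Fin r,
        (Ideal.span
          ({MvPolynomial.X 0 - MvPolynomial.C (P i 0) * MvPolynomial.X 2,
            MvPolynomial.X 1 - MvPolynomial.C (P i 1) * MvPolynomial.X 2} :
            Set (MvPolynomial (Fin 3) ℂ))) ^ (m i))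

/-- The projective dimension of the linear system `|d H - m 0 E 0 - ⋯|`. -/
noncomputable def dim {r : ℕ} (P : Fin r → Fin 2 → ℂ) (d : ℕ) (m : Fin r → ℕ) : ℤ :=
  (Module.finrank ℂ ↥(forms P d m) : ℤ) - 1

/-- The virtual dimension. -/
def vdim {r : ℕ} (d : ℕ) (m : Fin r → ℕ) : ℤ :=
  ((d + 2).choose 2 : ℤ) - 1 - ∑ i, ((m i + 1).choose 2 : ℤ)

/-- The expected dimension. -/
def edim {r : ℕ} (d : ℕ) (m : Fin r → ℕ) : ℤ := max (vdim d m) (-1)

/-- The tail: the points whose multiplicity is at least `2` and different from `M`. -/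
def tail {r : ℕ} (M : ℕ) (m : Fin r → ℕ) : Finset (Fin r) :=
  Finset.univ.filter fun i => 2 ≤ m i ∧ m i ≠ M

theorem result {r : ℕ} (m : Fin r → ℕ) (n M : ℕ) (hn : 36 ≤ n)
    (hcard : (Finset.univ.filter fun i => m i = M).card = n)
    (htail :
      (n ≤ 4 * M ∧ (∀ i ∈ tail M m, (m i : ℝ) ≤ 3 * √(n : ℝ) / 4 - 3 / 2) ∧
        4 * ∑ i ∈ tail M m, (m i : ℝ) * (m i + 1) ≤ 3 * (√(n : ℝ) - 5) * M) ∨
      (n ≤ 2 * M ∧ (∀ i ∈ tail M m, (m i : ℝ) ≤ 9 * √(n : ℝ) / 8 - 17 / 8) ∧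
        4 * ∑ i ∈ tail M m, (m i : ℝ) * (m i + 1) ≤ (√(n : ℝ) - 5) * M)) :
    ∃ F : MvPolynomial (Fin r × Fin 2) ℂ, F ≠ 0 ∧
      ∀ P : Fin r → Fin 2 → ℂ,
        MvPolynomial.eval (fun ij : Fin r × Fin 2 => P ij.1 ij.2) F ≠ 0 →
        ∀ d : ℕ, dim P d m = edim d m := by
  have hsmall : Pool.Agent.U605.ST.Small n M (fun b => 2 ≤ b ∧ b ≠ M ∧ ∃ i, m i = b)
      (∑ i ∈ Finset.univ.filter (fun i => 2 ≤ m i ∧ m i ≠ M), (m i : ℝ) * (m i + 1)) := by
    rcases htail with ⟨h0, h1, h2⟩ | ⟨h0, h1, h2⟩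
    · refine Or.inr ⟨h0, ?_, ?_⟩
      · rintro b ⟨hb1, hb2, i, rfl⟩
        have := h1 i (Finset.mem_filter.2 ⟨Finset.mem_univ _, hb1, hb2⟩)
        linarith
      · rw [mul_assoc 3] at h2
        exact h2
    · refine Or.inl ⟨h0, ?_, h2⟩
      rintro b ⟨hb1, hb2, i, rfl⟩
      have := h1 i (Finset.mem_filter.2 ⟨Finset.mem_univ _, hb1, hb2⟩)
      linarith
  obtain ⟨F, hF, hF'⟩ := Pool.Agent.U605.ST.expDim_tail m hn hcard hsmall
  refine ⟨F.map (algebraMap ℚ ℂ), Pool.Agent.H932R3.map_ne_zero_of hF, fun P hP d => ?_⟩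
  rw [MvPolynomial.eval_map] at hP
  have h1 : Module.finrank ℂ ↥(forms P d m) =
      Nat.choose (d + 2) 2 - ∑ i, Nat.choose (m i + 1) 2 := hF' P hP d
  have h2 : ∑ i, ((m i + 1).choose 2 : ℤ) = ((∑ i, Nat.choose (m i + 1) 2 : ℕ) : ℤ) := by
    push_cast
    rfl
  unfold dim edim vdim
  rw [h1, h2]
  omega

end Pool.Agent.Results.MP_6e81d8_ag.EqualPlusSmallMultiplicities
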