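import Pool.Agent.Results.MP_6e81d8_ag.MetricMultiplicities
import Pool.Agent.U828.KD.SH

/-!
# Linear systems of plane curves, multiplicities given by arbitrary functions of a given order

Let `f` be an ARBITRARY function on the natural numbers of some order `c > 0`: for one `d > c` the differences of
order `d` of `f` have a constant sign and are `t ^ (c - d + o(1))` in absolute value. There is no smoothness and no
formula; examples are `t ^ c` with `c` not an integer, `t ^ j log t`, the functions of a Hardy field with the same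
growth, all these plus arbitrary real polynomials of degree below the order of the differences, and irregular functions.

**Theorem.** (1) For every `n ≥ 10`, all but at most `badUniform n * N + N ^ (1 - κ)` of the integers `t` in `(N, 2 N]` with
`f t ≥ 1` are such that the linear system has the expected dimension
for `n` general points of the plane of multiplicity `⌊f t⌋`, in EVERY degree; here `κ = κ(n, f) > 0`, and
`badUniform n < 1` is zero for `n ≥ 37`, for `n = 13, 21` and for the squares. (2) The same holds with `bad n < 1` in the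
place of `badUniform n` for all vectors of `n` positive multiplicities with sum `⌊f t⌋` which take at most two consecutive
values; `bad n = 0` for the squares. (3) If `f t ≥ 1` for large `t`, then for a positive proportion of the `t` in `(N, 2 N]`,
`N` large, the multiplicity `⌊f t⌋` is good simultaneously for EVERY number `n ≥ 10` of points and every degree.

The starting file `MetricMultiplicities` has almost all members of families of sequences with a real parameter, with the
error `δ N`. The new ingredient is the derivative test for arbitrary functions of helper828 (`Pool.Agent.U828.KD`), with an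
error which is a power of `N`.
-/

set_option autoImplicit false

namespace Pool.Agent.Results.MP_6e81d8_ag.FunctionsOfGivenOrder

open Filter
open Pool.Agent.Results.MP_6e81d8_ag.MetricMultiplicities (EveryDegree Holds Good bad every_of holds_of good_of)

/-- The differences of order `d` of `f` have a constant sign and are `t ^ (c - d + o(1))` in absolute value. -/
def Order (d : ℕ) (c : ℝ) (f : ℕ → ℝ) : Prop :=
  ∀ ε : ℝ, 0 < ε → ∃ T : ℕ,
    (∀ t : ℕ, T ≤ t → (t : ℝ) ^ (c - d - ε) ≤ (fwdDiff 1)^[d] f t ∧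
      (fwdDiff 1)^[d] f t ≤ (t : ℝ) ^ (c - d + ε)) ∨
    (∀ t : ℕ, T ≤ t → (t : ℝ) ^ (c - d - ε) ≤ -(fwdDiff 1)^[d] f t ∧
      -(fwdDiff 1)^[d] f t ≤ (t : ℝ) ^ (c - d + ε))

/-- For all large `N`, at most `β N + N ^ (1 - κ)` of the integers `t` in `(N, 2 N]` are such that `f t ≥ 1` and
`⌊f t⌋` is bad, for some `κ > 0`. -/
def FewBad (f : ℕ → ℝ) (β : ℝ) (P : ℕ → Prop) : Prop :=
  ∃ κ : ℝ, 0 < κ ∧ ∃ N₀ : ℕ, ∀ N : ℕ, N₀ ≤ N →
    ({t : ℕ | t ∈ Finset.Ioc N (2 * N) ∧ 1 ≤ f t ∧ P ⌊f t⌋₊}.ncard : ℝ) ≤ β * N + (N : ℝ) ^ (1 - κ)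

open Classical in
/-- The bound for the proportion of the bad multiplicities for `n` points of the same multiplicity. -/
noncomputable def badUniform (n : ℕ) : ℝ :=
  if 37 ≤ n ∨ n = 13 ∨ n = 21 ∨ IsSquare n then 0
  else if n = 11 ∨ n = 15 then (√(n : ℝ) - 3) / 6
  else (min (√(n : ℝ) - 3) (2 / 3 + 9 / (4 * √(n : ℝ))) +
    min (√(n : ℝ) - 3) (2 / 3 + 1 / (4 * √(n : ℝ)))) / 2

theorem mono {f : ℕ → ℝ} {β : ℝ} {P Q : ℕ → Prop} (h : FewBad f β P) (hPQ : ∀ m, Q m → P m) : FewBad f β Q := by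
  obtain ⟨κ, hκ, N₀, h⟩ := h
  refine ⟨κ, hκ, N₀, fun N hN => le_trans ?_ (h N hN)⟩
  have h1 : {t : ℕ | t ∈ Finset.Ioc N (2 * N) ∧ 1 ≤ f t ∧ Q ⌊f t⌋₊} ⊆
      {t : ℕ | t ∈ Finset.Ioc N (2 * N) ∧ 1 ≤ f t ∧ P ⌊f t⌋₊} :=
    fun t ht => ⟨ht.1, ht.2.1, hPQ _ ht.2.2⟩
  exact_mod_cast Set.ncard_le_ncard h1 ((Finset.finite_toSet (Finset.Ioc N (2 * N))).subset fun t ht => ht.1)

/-- **The expected dimension in every degree, along arbitrary functions of a given order.** -/
theorem result (d : ℕ) (c : ℝ) (hd : 2 ≤ d) (hc0 : 0 < c) (hcd : c < d) (f : ℕ → ℝ) (hf : Order d c f) :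
    (∀ n : ℕ, 10 ≤ n →
      (badUniform n < 1 ∧ FewBad f (badUniform n) fun m => ¬ EveryDegree (fun _ : Fin n => m)) ∧
      (bad n < 1 ∧ FewBad f (bad n) fun W => ¬ Good n W)) ∧
    ((∀ᶠ t : ℕ in atTop, 1 ≤ f t) → ∀ᶠ N : ℕ in atTop, 1 / 10000 ^ 22 * (N : ℝ) ≤
      ({t : ℕ | t ∈ Finset.Ioc N (2 * N) ∧ Holds ⌊f t⌋₊}.ncard : ℝ)) := by
  refine ⟨fun n hn => ⟨⟨Pool.Agent.N141.SG.badU_lt hn, ?_⟩, ⟨Pool.Agent.N141.SG.badN_lt hn, ?_⟩⟩, fun hpos => ?_⟩
  · exact mono (P := fun m => ¬ Pool.Agent.N141.SG.Ex n m) (Pool.Agent.U828.KD.one_order d hd c hc0 hcd f hf hn)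
      fun m h h2 => h (every_of (w := fun _ => m) h2)
  · exact mono (P := fun W => ¬ Pool.Agent.N141.SG.GoodN n W) (Pool.Agent.U828.KD.near_order d hd c hc0 hcd f hf hn)
      fun W h h2 => h (good_of h2)
  · filter_upwards [Pool.Agent.U828.KD.tgt_order d hd c hc0 hcd f hf hpos] with N hN
    refine hN.trans ?_
    have h1 : {t : ℕ | t ∈ Finset.Ioc N (2 * N) ∧ 1 ≤ ⌊f t⌋₊ ∧ Pool.Agent.N141.SG.Tgt (⌊f t⌋₊ : ℕ)} ⊆
        {t : ℕ | t ∈ Finset.Ioc N (2 * N) ∧ Holds ⌊f t⌋₊} :=
      fun t ht => ⟨ht.1, holds_of ht.2.1 ht.2.2⟩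
    exact_mod_cast Set.ncard_le_ncard h1 ((Finset.finite_toSet (Finset.Ioc N (2 * N))).subset fun t ht => ht.1)

end Pool.Agent.Results.MP_6e81d8_ag.FunctionsOfGivenOrder
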