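import Mathlib
import Pool.Agent.U11.ChainOne

set_option autoImplicit false

/-!
# Very general points in groups of `M + 2`, arbitrary multiplicities: every degree up to one curve

Let `k + r M = 9`, `M, r ≥ 1`, `s = √(M² + 2 M)`, and divide `n = k + r (M + 2) = 9 + 2 r` very general
points of the complex projective plane into `r` groups of `M + 2` points and `k` single points. For a
vector `v` of ARBITRARY multiplicities let `S t = M + 2 + 2 * (sum of the multiplicities in the group t)`.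
* If the single points have multiplicity at least `D` and `S t > s (2 D + 1)` for all `t`, `D` ARBITRARY,
  then `dim ≤ 0` in the degree `3 D` (at most one curve), `dim = edim` or `edim = -1`, and `dim = -1` (no
  curves) in every degree `d < 3 D`. If moreover `S t ≥ s (2 D + 1) + ε` for one `t` and `D ≥ D₀ (ε)`, then
  `dim = edim` in the degree `3 D`, too.
* If the single points have multiplicity at most `D` and for every `t` there is `b` such that the
  multiplicities in the group `t` are at most `b + 1` and `S t ≤ s (2 D + 1)` after raising them to at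
  least `b`, then `dim = edim` in every degree `d ≥ 3 D`.
-/

namespace Pool.Agent.Results.MP_6e81d8_ag.GroupsAtMostOneCurve

/-- The vector space of the forms of degree `d` in three variables over `ℂ` with multiplicity at
least `m i` at the point `(P i 0 : P i 1 : 1)` for every `i`. -/
noncomputable def forms {n : ℕ} (P : Fin n → Fin 2 → ℂ) (d : ℕ) (m : Fin n → ℕ) :
    Submodule ℂ (MvPolynomial (Fin 3) ℂ) :=
  MvPolynomial.homogeneousSubmodule (Fin 3) ℂ d ⊓
    Submodule.restrictScalars ℂ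
      (⨅ i : Fin n,
        (Ideal.span
          ({MvPolynomial.X 0 - MvPolynomial.C (P i 0) * MvPolynomial.X 2,
            MvPolynomial.X 1 - MvPolynomial.C (P i 1) * MvPolynomial.X 2} :
            Set (MvPolynomial (Fin 3) ℂ))) ^ (m i))

/-- The projective dimension of the linear system `|d H - m 0 E 0 - ⋯|`. -/
noncomputable def dim {n : ℕ} (P : Fin n → Fin 2 → ℂ) (d : ℕ) (m : Fin n → ℕ) : ℤ :=
  (Module.finrank ℂ ↥(forms P d m) : ℤ) - 1

/-- The virtual dimension. -/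
def vdim {n : ℕ} (d : ℕ) (m : Fin n → ℕ) : ℤ :=
  ((d + 2).choose 2 : ℤ) - 1 - ∑ i, ((m i + 1).choose 2 : ℤ)

/-- The expected dimension. -/
def edim {n : ℕ} (d : ℕ) (m : Fin n → ℕ) : ℤ := max (vdim d m) (-1)

/-- The division `φ` of the points into `r` groups of `M + 2` points and `k` single points: the single
points have multiplicity at least `D`, and `S t = M + 2 + 2 ∑ (multiplicities in the group t)` is larger
than `√(M² + 2 M) (2 D + 1)` for every `t`, for one `t` by at least `ε`. -/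
def Large {M r k n : ℕ} (D : ℕ) (ε : ℝ) (φ : (Fin r × Fin (M + 2)) ⊕ Fin k ≃ Fin n)
    (v : Fin n → ℕ) : Prop :=
  (∀ i, D ≤ v (φ (Sum.inr i))) ∧
  (∀ t, √((M : ℝ) ^ 2 + 2 * M) * (2 * D + 1) <
    (M : ℝ) + 2 + 2 * ∑ i, (v (φ (Sum.inl (t, i))) : ℝ)) ∧
  (∃ t, √((M : ℝ) ^ 2 + 2 * M) * (2 * D + 1) + ε ≤
    (M : ℝ) + 2 + 2 * ∑ i, (v (φ (Sum.inl (t, i))) : ℝ))

/-- `Large` without `ε`: the single points have multiplicity at least `D`, and
`M + 2 + 2 ∑ (multiplicities in the group t)` is larger than `√(M² + 2 M) (2 D + 1)` for every `t`. -/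
def Above {M r k n : ℕ} (D : ℕ) (φ : (Fin r × Fin (M + 2)) ⊕ Fin k ≃ Fin n)
    (v : Fin n → ℕ) : Prop :=
  (∀ i, D ≤ v (φ (Sum.inr i))) ∧
  (∀ t, √((M : ℝ) ^ 2 + 2 * M) * (2 * D + 1) <
    (M : ℝ) + 2 + 2 * ∑ i, (v (φ (Sum.inl (t, i))) : ℝ))

/-- The division `φ` of the points into `r` groups of `M + 2` points and `k` single points: the single
points have multiplicity at most `D`, and for every group `t` there is `b` such that its multiplicities
are at most `b + 1` and `M + 2 + 2 ∑ max (multiplicity, b) ≤ √(M² + 2 M) (2 D + 1)`. -/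
def Small {M r k n : ℕ} (D : ℕ) (φ : (Fin r × Fin (M + 2)) ⊕ Fin k ≃ Fin n)
    (v : Fin n → ℕ) : Prop :=
  (∀ i, v (φ (Sum.inr i)) ≤ D) ∧
  (∀ t, ∃ b : ℕ, (∀ i, v (φ (Sum.inl (t, i))) ≤ b + 1) ∧
    (M : ℝ) + 2 + 2 * ∑ i, ((max (v (φ (Sum.inl (t, i)))) b : ℕ) : ℝ) ≤
      √((M : ℝ) ^ 2 + 2 * M) * (2 * D + 1))

theorem dim_of {n : ℕ} {P : Fin n → Fin 2 → ℂ} {d : ℕ} {m : Fin n → ℕ}
    (h : H932R3.ExpDim ℂ m P d) : dim P d m = edim d m := by
  unfold H932R3.ExpDim at h
  have h2 : ∑ i, ((m i + 1).choose 2 : ℤ) = ((∑ i, Nat.choose (m i + 1) 2 : ℕ) : ℤ) := by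
    push_cast
    rfl
  unfold dim edim vdim forms
  rw [h, h2]
  omega

open Pool.Agent.TH176.Nag Pool.Agent.TH603.Sur in
/-- **Very general points in groups, arbitrary multiplicities.** -/
theorem result (M r k : ℕ) (hM : 1 ≤ M) (hr : 1 ≤ r) (hk : k + r * M = 9) :
    ∃ Φ : ℕ → MvPolynomial (Fin (k + r * (M + 2)) × Fin 2) ℂ, (∀ a, Φ a ≠ 0) ∧
      (∀ P : Fin (k + r * (M + 2)) → Fin 2 → ℂ,
        (∀ a, MvPolynomial.eval (fun ij : Fin (k + r * (M + 2)) × Fin 2 => P ij.1 ij.2) (Φ a) ≠ 0) →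
        ∀ (φ : (Fin r × Fin (M + 2)) ⊕ Fin k ≃ Fin (k + r * (M + 2)))
          (v : Fin (k + r * (M + 2)) → ℕ) (D : ℕ), Above D φ v →
          (dim P (3 * D) v = edim (3 * D) v ∨ (dim P (3 * D) v = 0 ∧ edim (3 * D) v = -1)) ∧
          dim P (3 * D) v ≤ 0 ∧ ∀ d < 3 * D, dim P d v = -1) ∧
      (∀ P : Fin (k + r * (M + 2)) → Fin 2 → ℂ,
        (∀ a, MvPolynomial.eval (fun ij : Fin (k + r * (M + 2)) × Fin 2 => P ij.1 ij.2) (Φ a) ≠ 0) →
        ∀ (φ : (Fin r × Fin (M + 2)) ⊕ Fin k ≃ Fin (k + r * (M + 2)))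
          (v : Fin (k + r * (M + 2)) → ℕ) (D d : ℕ), 3 * D ≤ d → Small D φ v →
          dim P d v = edim d v) ∧
      (∀ ε : ℝ, 0 < ε → ∃ D₀ : ℕ, ∀ P : Fin (k + r * (M + 2)) → Fin 2 → ℂ,
        (∀ a, MvPolynomial.eval (fun ij : Fin (k + r * (M + 2)) × Fin 2 => P ij.1 ij.2) (Φ a) ≠ 0) →
        ∀ (φ : (Fin r × Fin (M + 2)) ⊕ Fin k ≃ Fin (k + r * (M + 2)))
          (v : Fin (k + r * (M + 2)) → ℕ) (D d : ℕ), D₀ ≤ D → d ≤ 3 * D → Large D ε φ v →
          dim P d v = edim d v) := by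
  choose F hF hF' using fun w : Fin (k + r * (M + 2)) → ℕ =>
    Pool.Agent.TH864.SX.expDim_of_or' (w := w) (G := fun d => Emp w (TZ d) ∨ Sur w (TZ d))
      (fun d hd => hd)
  choose F2 hF2 hF2' using fun w : Fin (k + r * (M + 2)) → ℕ =>
    U11.dims (w := w) (G := fun d => U11.One w (TZ d)) (fun d hd => hd)
  obtain ⟨enum, henum⟩ := exists_surjective_nat (Fin (k + r * (M + 2)) → ℕ)
  have split : ∀ P : Fin (k + r * (M + 2)) → Fin 2 → ℂ,
      (∀ a, MvPolynomial.eval (fun ij : Fin (k + r * (M + 2)) × Fin 2 => P ij.1 ij.2)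
        ((F (enum a) * F2 (enum a)).map (algebraMap ℚ ℂ)) ≠ 0) →
      ∀ a, MvPolynomial.aeval (fun ij : Fin (k + r * (M + 2)) × Fin 2 => P ij.1 ij.2)
        (F (enum a)) ≠ 0 ∧
        MvPolynomial.aeval (fun ij : Fin (k + r * (M + 2)) × Fin 2 => P ij.1 ij.2)
        (F2 (enum a)) ≠ 0 := by
    intro P hP a
    have hPk := hP a
    rw [MvPolynomial.eval_map] at hPk
    have hPk' : MvPolynomial.aeval (fun ij : Fin (k + r * (M + 2)) × Fin 2 => P ij.1 ij.2)
        (F (enum a) * F2 (enum a)) ≠ 0 := hPk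
    rw [map_mul] at hPk'
    exact ⟨left_ne_zero_of_mul hPk', right_ne_zero_of_mul hPk'⟩
  have key : ∀ P : Fin (k + r * (M + 2)) → Fin 2 → ℂ,
      (∀ a, MvPolynomial.eval (fun ij : Fin (k + r * (M + 2)) × Fin 2 => P ij.1 ij.2)
        ((F (enum a) * F2 (enum a)).map (algebraMap ℚ ℂ)) ≠ 0) →
      ∀ (v : Fin (k + r * (M + 2)) → ℕ) (d : ℕ), Emp v (TZ d) ∨ Sur v (TZ d) →
        dim P d v = edim d v := by
    intro P hP v d hd
    obtain ⟨a, rfl⟩ := henum v
    exact dim_of (hF' (enum a) P (split P hP a).1 d hd)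
  refine ⟨fun a => (F (enum a) * F2 (enum a)).map (algebraMap ℚ ℂ),
    fun a => H932R3.map_ne_zero_of (mul_ne_zero (hF _) (hF2 _)), ?_, ?_, ?_⟩
  · intro P hP φ v D ⟨h1, h2⟩
    have hE := U11.joint_one hM hr hk φ v h1 (fun t => by
      have := h2 t
      push_cast
      exact this)
    obtain ⟨a, rfl⟩ := henum v
    have hd := hF2' (enum a) P (split P hP a).2 (3 * D) (Or.inr (Or.inr hE))
    have hc := U11.choose_le_one hE
    have hle : Module.finrank ℂ (U11.Vw ℂ (enum a) P (3 * D)) ≤ 1 := by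
      rcases hd with hd | hd
      · rw [hd]; omega
      · exact hd.2.le
    have hle' : Module.finrank ℂ ↥(forms P (3 * D) (enum a)) ≤ 1 := hle
    have e : ∑ i, ((enum a i + 1).choose 2 : ℤ) =
        ((∑ i, Nat.choose (enum a i + 1) 2 : ℕ) : ℤ) := by
      push_cast
      rfl
    refine ⟨?_, ?_, fun d hd' => ?_⟩
    · rcases hd with hd | ⟨hd, hd1⟩
      · exact Or.inl (dim_of hd)
      · right
        have hd1' : Module.finrank ℂ ↥(forms P (3 * D) (enum a)) = 1 := hd1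
        unfold dim edim vdim
        rw [hd1', e]
        omega
    · unfold dim
      omega
    · have h4 := U11.low_bot hle hd'
      have h5 : Module.finrank ℂ (U11.Vw ℂ (enum a) P d) = 0 := by
        rw [h4, finrank_bot]
      have h5' : Module.finrank ℂ ↥(forms P d (enum a)) = 0 := h5
      unfold dim
      rw [h5']
      rfl
  · intro P hP φ v D d hd ⟨h1, h2⟩
    refine key P hP v d (Or.inr (U11.joint_sur hM hr hk φ v h1 (fun t => ?_) hd))
    obtain ⟨b, hb, hb'⟩ := h2 t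
    refine ⟨b, hb, ?_⟩
    push_cast at hb' ⊢
    exact hb'
  · intro ε hε
    obtain ⟨D₀, hD₀⟩ := U11.joint_emp hM hr hk hε
    refine ⟨D₀, fun P hP φ v D d hD hd ⟨h1, h2, t0, h3⟩ => key P hP v d (Or.inl ?_)⟩
    refine hD₀ D hD φ v h1 (fun t => ?_) ⟨t0, ?_⟩ d hd
    · have := h2 t
      push_cast
      exact this
    · push_cast
      exact h3

end Pool.Agent.Results.MP_6e81d8_ag.GroupsAtMostOneCurve
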