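import Mathlib
import Pool.Agent.U390.NT.Base

set_option autoImplicit false

/-!
# The Segre-Harbourne-Gimigliano-Hirschowitz conjecture: nearly equal multiplicities with a tail

A vector `v` of multiplicities is called a base vector if there are a set `S` of `n` of the points
and natural numbers `m ≥ n / 2` and `T` with

* `v i = m` or `v i = m + 1` at the points of `S` and `24 T + 16 √n / 3 + 95 ≤ n`, or
  `v i = m` at the points of `S`, `n ≥ 149` and `8 T + 8 √n / 3 + 29 ≤ n`;
* `v i ≤ T` at all other points, and the sum of the squares of those of these `v i` which are at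
  least `2` is at most `T (m - T)`.

So `m` and `m + 1` occur `n` times in any proportion, any number of points is simple, and the tail
consists of arbitrary multiplicities up to about `n / 24` (`n / 8` for equal `v i` on `S`); the number
of its points is not bounded (it grows with `m`).

For base vectors `v` the dimension of `|d H - ∑ v i E i|` is the expected one in EVERY degree `d`, for
all points of one nonempty open set.
-/

namespace Pool.Agent.Results.MP_6e81d8_ag.NearlyEqualWithTail

/-- The vector space of the forms of degree `d` in three variables over `ℂ` with multiplicity at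
least `m i` at the point `(P i 0 : P i 1 : 1)` for every `i`. -/
noncomputable def forms {r : ℕ} (P : Fin r → Fin 2 → ℂ) (d : ℕ) (m : Fin r → ℕ) :
    Submodule ℂ (MvPolynomial (Fin 3) ℂ) :=
  MvPolynomial.homogeneousSubmodule (Fin 3) ℂ d ⊓
    Submodule.restrictScalars ℂ
      (⨅ i : Fin r,
        (Ideal.span
          ({MvPolynomial.X 0 - MvPolynomial.C (P i 0) * MvPolynomial.X 2,
            MvPolynomial.X 1 - MvPolynomial.C (P i 1) * MvPolynomial.X 2} :
            Set (MvPolynomial (Fin 3) ℂ))) ^ (m i))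

/-- The projective dimension of the linear system `|d H - m 0 E 0 - ⋯|`. -/
noncomputable def dim {r : ℕ} (P : Fin r → Fin 2 → ℂ) (d : ℕ) (m : Fin r → ℕ) : ℤ :=
  (Module.finrank ℂ ↥(forms P d m) : ℤ) - 1

/-- The virtual dimension. -/
def vdim {r : ℕ} (d : ℕ) (m : Fin r → ℕ) : ℤ :=
  ((d + 2).choose 2 : ℤ) - 1 - ∑ i, ((m i + 1).choose 2 : ℤ)

/-- The expected dimension. -/
def edim {r : ℕ} (d : ℕ) (m : Fin r → ℕ) : ℤ := max (vdim d m) (-1)

/-- The base vectors: the multiplicities at the points of the set `S` are `m` or `m + 1`, or all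
equal to `m`, where `|S| ≤ 2 m`; the other multiplicities are at most `T`, which is bounded by about
`|S| / 24` resp. `|S| / 8`, and the sum of the squares of those of them which are larger than `1` is
at most `T (m - T)`. -/
def Base {h : ℕ} (v : Fin h → ℕ) : Prop :=
  ∃ (S : Finset (Fin h)) (m T : ℕ), S.card ≤ 2 * m ∧
    (((∀ i ∈ S, v i = m ∨ v i = m + 1) ∧
        24 * (T : ℝ) + 16 * √(S.card : ℝ) / 3 + 95 ≤ S.card) ∨
      ((∀ i ∈ S, v i = m) ∧ 149 ≤ S.card ∧
        8 * (T : ℝ) + 8 * √(S.card : ℝ) / 3 + 29 ≤ S.card)) ∧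
    (∀ j, j ∉ S → v j ≤ T) ∧
    ∑ j ∈ Finset.univ.filter (fun j => j ∉ S ∧ 2 ≤ v j), v j ^ 2 + T ^ 2 ≤ T * m

theorem result {r : ℕ} (v : Fin r → ℕ) (hv : Base v) :
    ∃ F : MvPolynomial (Fin r × Fin 2) ℂ, F ≠ 0 ∧
      ∀ P : Fin r → Fin 2 → ℂ,
        MvPolynomial.eval (fun ij : Fin r × Fin 2 => P ij.1 ij.2) F ≠ 0 →
        ∀ d : ℕ, dim P d v = edim d v := by
  obtain ⟨F, hF, hF'⟩ := Pool.Agent.U390.NT.base_exp (v := v) hv
  refine ⟨F.map (algebraMap ℚ ℂ), Pool.Agent.H932R3.map_ne_zero_of hF, fun P hP d => ?_⟩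
  rw [MvPolynomial.eval_map] at hP
  have h1 : Module.finrank ℂ ↥(forms P d v) =
      Nat.choose (d + 2) 2 - ∑ i, Nat.choose (v i + 1) 2 := hF' P hP d
  have h2 : ∑ i, ((v i + 1).choose 2 : ℤ) = ((∑ i, Nat.choose (v i + 1) 2 : ℕ) : ℤ) := by
    push_cast
    rfl
  unfold dim edim vdim
  rw [h1, h2]
  omega

end Pool.Agent.Results.MP_6e81d8_ag.NearlyEqualWithTail
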